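import Pool.Agent.Y965.SE.Klein

/-!
# Transitive non-uniformly hyperbolic endomorphisms which are not stably ergodic, in the real
analytic class, in the `C^∞` topology, in every degree at least three and on the Klein bottle

On the torus the map `f` is `(x, y) ↦ (d x, h (x, y))`, where `h (x, ·)` is the inverse of
`y ↦ y + (1/10) cos (2 π x) (1 - cos (2 π y))`. Replacing `1 - cos (2 π y)` by
`cos (2 π δ) - cos (2 π y)` gives real analytic area-preserving maps which converge to `f` together
with all derivatives as `δ → 0` and leave two open annuli invariant. For odd `d` all these maps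
commute with `(x, y) ↦ (x + 1/2, -y)` and descend to the Klein bottle.
-/

set_option autoImplicit false

open Set Filter Topology MeasureTheory Function
open scoped ContDiff

namespace Pool.Agent.Results.MP_9eaa6a_an.SmoothlyUnstable

/-- The two-torus. Its `volume` is the Haar probability measure. -/
abbrev Torus : Type := UnitAddCircle × UnitAddCircle

/-- The projection of the plane onto the two-torus. -/
def proj (z : ℝ × ℝ) : Torus := ((z.1 : UnitAddCircle), (z.2 : UnitAddCircle))

/-- The fixed point free involution `(x, y) ↦ (x + 1/2, -y)` of the torus. -/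
noncomputable def involution (w : Torus) : Torus := (w.1 + ((1 / 2 : ℝ) : UnitAddCircle), -w.2)

lemma involution_involution (w : Torus) : involution (involution w) = w :=
  Y965.SE.flp_flp w

/-- Two points of the torus are equivalent if they are equal or exchanged by the involution. -/
def kleinSetoid : Setoid Torus where
  r v w := w = v ∨ w = involution v
  iseqv := by
    refine ⟨fun v => Or.inl rfl, ?_, ?_⟩
    · rintro v w (rfl | rfl)
      · exact Or.inl rfl
      · exact Or.inr (involution_involution v).symm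
    · rintro u v w (rfl | rfl) (rfl | rfl)
      · exact Or.inl rfl
      · exact Or.inr rfl
      · exact Or.inr rfl
      · exact Or.inl (involution_involution u)

/-- The Klein bottle: the quotient of the torus by the involution, with the quotient topology and
the quotient `σ`-algebra. -/
abbrev Klein : Type := Quotient kleinSetoid

/-- The projection of the plane onto the Klein bottle. -/
def kleinProj (z : ℝ × ℝ) : Klein := Quotient.mk kleinSetoid (proj z)

/-- The smooth area probability of the Klein bottle: the image of the Haar measure of the torus. -/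
noncomputable def kleinArea : Measure Klein := Measure.map (Quotient.mk kleinSetoid) volume

section
variable {M : Type} [TopologicalSpace M] [MeasurableSpace M]

/-- `f` is an element of `End¹_μ(M)`, described with a lift `F` to the plane: a non-invertible
`C¹` local diffeomorphism of the surface `M`, with projection `p : ℝ² → M`, preserving `μ`. -/
structure IsEndo (p : ℝ × ℝ → M) (μ : Measure M) (f : M → M) (F : ℝ × ℝ → ℝ × ℝ) : Prop where
  lift : ∀ z, f (p z) = p (F z)
  smooth : ContDiff ℝ 1 F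
  local_diffeo : ∀ z, (fderiv ℝ F z).IsInvertible
  area : MeasurePreserving f μ μ
  noninvertible : ¬ Injective f

/-- Some forward orbit is dense. -/
def IsTransitive (f : M → M) : Prop := ∃ w, Dense (range fun n : ℕ => f^[n] w)

/-- The conorm `inf {‖A v‖ : ‖v‖ = 1}`. -/
noncomputable def conorm (A : ℝ × ℝ →L[ℝ] ℝ × ℝ) : ℝ := ⨅ v : {v : ℝ × ℝ // ‖v‖ = 1}, ‖A v.1‖

/-- Non-uniform hyperbolicity: at almost every point `w` of the surface the limits `χ⁺` of
`(1/n) log ‖D_w fⁿ‖` and `χ⁻` of `(1/n) log m(D_w fⁿ)` exist, and `χ⁻ < 0 < χ⁺`. The derivative of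
`fⁿ` at `w` is that of the lift at any point `z` above `w`. -/
def IsNUH (p : ℝ × ℝ → M) (μ : Measure M) (F : ℝ × ℝ → ℝ × ℝ) : Prop :=
  ∀ᵐ w ∂μ, ∀ z : ℝ × ℝ, p z = w → ∃ χm χp : ℝ, χm < 0 ∧ 0 < χp ∧
    Tendsto (fun n : ℕ => (1 / (n : ℝ)) * Real.log ‖fderiv ℝ (F^[n]) z‖) atTop (𝓝 χp) ∧
    Tendsto (fun n : ℕ => (1 / (n : ℝ)) * Real.log (conorm (fderiv ℝ (F^[n]) z))) atTop (𝓝 χm)

/-- The lifts `F` and `G` and all their derivatives of order at most `k` are `ε`-close. -/
def CkClose (k : ℕ) (ε : ℝ) (F G : ℝ × ℝ → ℝ × ℝ) : Prop :=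
  ∀ j ≤ k, ∀ z, ‖iteratedFDeriv ℝ j F z - iteratedFDeriv ℝ j G z‖ < ε

/-- The linear part of the lift is the diagonal matrix with entries `d` and `1`. -/
def HasLinearPart (d : ℕ) (F : ℝ × ℝ → ℝ × ℝ) : Prop :=
  ∀ z : ℝ × ℝ, F (z + (1, 0)) = F z + ((d : ℝ), 0) ∧ F (z + (0, 1)) = F z + (0, 1)

/-- On the surface `M` with projection `p : ℝ² → M` and area `μ` there is a real analytic, ergodic,
transitive, non-uniformly hyperbolic endomorphism `f` with linear part `diag (d, 1)` such that every
neighbourhood of `f` in the `C^∞` topology contains a real analytic non-uniformly hyperbolic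
endomorphism with the same linear part which is neither ergodic nor transitive. -/
def NotSmoothlyStable (p : ℝ × ℝ → M) (μ : Measure M) (d : ℕ) : Prop :=
  ∃ (f : M → M) (F : ℝ × ℝ → ℝ × ℝ),
    IsEndo p μ f F ∧ HasLinearPart d F ∧ ContDiff ℝ ω F ∧ Ergodic f μ ∧ IsTransitive f ∧
    IsNUH p μ F ∧
    ∀ (k : ℕ) (ε : ℝ), 0 < ε → ∃ (g : M → M) (G : ℝ × ℝ → ℝ × ℝ),
      IsEndo p μ g G ∧ HasLinearPart d G ∧ ContDiff ℝ ω G ∧ IsNUH p μ G ∧ CkClose k ε F G ∧
      ¬ Ergodic g μ ∧ ¬ IsTransitive g

end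

open Y965.SE

lemma linearPart {d : ℕ} (hd : 3 ≤ d) (e : ℝ) : HasLinearPart d (nD hd e).F := by
  intro z
  constructor
  · have a1 : z + ((1 : ℝ), (0 : ℝ)) = (z.1 + 1, z.2) := by ext <;> simp
    rw [a1, (nD hd e).F_add_one_left]
    ext <;> simp [nD_d]
  · have a1 : z + ((0 : ℝ), (1 : ℝ)) = (z.1, z.2 + 1) := by ext <;> simp
    rw [a1, (nD hd e).F_add_one_right]
    ext <;> simp [nD_m]

lemma analytic {d : ℕ} (hd : 3 ≤ d) (e : ℝ) : ContDiff ℝ ω (nD hd e).F :=
  (nD_contDiff hd).comp (contDiff_const.prodMk contDiff_id)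

lemma inv_fderiv {d : ℕ} (hd : 3 ≤ d) (e : ℝ) (z : ℝ × ℝ) :
    (fderiv ℝ (nD hd e).F z).IsInvertible := by
  rw [((nD hd e).F_hasFDerivAt z).fderiv]
  exact ⟨H165R3.triE _ _ _ ((nD hd e).a_pos z).ne' ((nD hd e).b_pos z).ne', rfl⟩

lemma isEndo {d : ℕ} (hd : 3 ≤ d) (δ : ℝ) : IsEndo proj volume
    (nD hd (Real.cos (2 * Real.pi * δ))).f (nD hd (Real.cos (2 * Real.pi * δ))).F where
  lift z := (nD hd _).f_pr z
  smooth := (analytic hd _).of_le le_top
  local_diffeo z := inv_fderiv hd _ z
  area := (nD hd _).f_mp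
  noninvertible := nD_not_inj hd δ

/-- The Klein bottle is the quotient of the torus by the involution. -/
lemma kq : KQ (Quotient.mk kleinSetoid) where
  surj := Quotient.mk_surjective
  eq_iff _ _ := Quotient.eq (r := kleinSetoid)
  open_iff _ := isOpen_coinduced
  meas_iff _ := Iff.rfl

lemma isEndoK {d : ℕ} (hd : 3 ≤ d) (ho : Odd d) (δ : ℝ) : IsEndo kleinProj kleinArea
    (dn kq (nD hd (Real.cos (2 * Real.pi * δ))).f) (nD hd (Real.cos (2 * Real.pi * δ))).F where
  lift z := by
    show dn kq _ (Quotient.mk kleinSetoid (proj z)) = _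
    rw [dn_q kq (nD_flip hd ho _)]
    exact congrArg (Quotient.mk kleinSetoid) ((nD hd _).f_pr z)
  smooth := (analytic hd _).of_le le_top
  local_diffeo z := inv_fderiv hd _ z
  area := dn_mp kq (nD_flip hd ho _) (nD hd _).f_mp
  noninvertible := dn_not_inj kq hd ho δ

lemma nuhK {d : ℕ} (hd : 3 ≤ d) (e : ℝ) : IsNUH kleinProj kleinArea (nD hd e).F := by
  refine dn_ae kq (nD_nuh hd e) ?_
  intro w h1 h2 z hz
  rcases (kq.eq_iff (proj z) w).1 hz with h | h
  · exact h1 z h.symm
  · refine h2 z ?_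
    rw [h]
    exact (involution_involution (proj z)).symm

lemma exists_close {d : ℕ} (hd : 3 ≤ d) (k : ℕ) {ε : ℝ} (hε : 0 < ε) :
    ∃ δ : ℝ, 0 < δ ∧ δ < 1 / 2 ∧
      CkClose k ε (nD hd 1).F (nD hd (Real.cos (2 * Real.pi * δ))).F := by
  have h1 : Real.cos (2 * Real.pi * 0) = 1 := by rw [mul_zero, Real.cos_zero]
  have hcont : Tendsto (fun δ : ℝ => Real.cos (2 * Real.pi * δ)) (𝓝 0) (𝓝 1) := by
    have : Continuous fun δ : ℝ => Real.cos (2 * Real.pi * δ) := by fun_prop
    have h2 := this.tendsto 0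
    rwa [h1] at h2
  have h2 : ∀ᶠ e in 𝓝 (1 : ℝ), ∀ j ∈ Iic k, ∀ z,
      ‖iteratedFDeriv ℝ j (nD hd 1).F z - iteratedFDeriv ℝ j (nD hd e).F z‖ < ε :=
    (finite_Iic k).eventually_all.2 fun j _ => nD_close hd j hε
  have h3 := hcont.eventually h2
  have h4 : ∀ᶠ δ : ℝ in 𝓝 0, δ < 1 / 2 := eventually_lt_nhds (by norm_num)
  have h5 : ∀ᶠ δ : ℝ in 𝓝[>] 0, (∀ j ∈ Iic k, ∀ z,
      ‖iteratedFDeriv ℝ j (nD hd 1).F z -
        iteratedFDeriv ℝ j (nD hd (Real.cos (2 * Real.pi * δ))).F z‖ < ε) ∧ δ < 1 / 2 ∧ 0 < δ := by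
    filter_upwards [nhdsWithin_le_nhds h3, nhdsWithin_le_nhds h4, self_mem_nhdsWithin] with δ a b c
    exact ⟨a, b, c⟩
  obtain ⟨δ, a, b, c⟩ := h5.exists
  exact ⟨δ, c, b, fun j hj z => a j hj z⟩

/-- **Transitive non-uniformly hyperbolic endomorphisms need not be stably ergodic**, even in the
real analytic class and with respect to the `C^∞` topology: this happens on the torus for every
degree `d ≥ 3`, and on the Klein bottle for every odd degree `d ≥ 3`; the approximating
non-uniformly hyperbolic endomorphisms are neither ergodic nor transitive. -/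
theorem result :
    (∀ d : ℕ, 3 ≤ d → NotSmoothlyStable proj (volume : Measure Torus) d) ∧
    (∀ d : ℕ, 3 ≤ d → Odd d → NotSmoothlyStable kleinProj kleinArea d) := by
  have h1 : Real.cos (2 * Real.pi * 0) = 1 := by rw [mul_zero, Real.cos_zero]
  constructor
  · intro d hd
    refine ⟨(nD hd 1).f, (nD hd 1).F, ?_, linearPart hd 1, analytic hd 1, nD_ergodic hd,
      H165R3.dense_orbit (nD hd 1).f_cont (nD_ergodic hd), nD_nuh hd 1, ?_⟩
    · have := isEndo hd 0
      rwa [h1] at this
    · intro k ε hε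
      obtain ⟨δ, h0, h2, h3⟩ := exists_close hd k hε
      exact ⟨_, _, isEndo hd δ, linearPart hd _, analytic hd _, nD_nuh hd _, h3,
        nD_not_ergodic hd h0 h2, nD_not_transitive hd h0 h2⟩
  · intro d hd ho
    refine ⟨dn kq (nD hd 1).f, (nD hd 1).F, ?_, linearPart hd 1, analytic hd 1,
      dn_erg kq (nD_flip hd ho 1) (nD_ergodic hd),
      dn_dense kq (nD_flip hd ho 1) (H165R3.dense_orbit (nD hd 1).f_cont (nD_ergodic hd)),
      nuhK hd 1, ?_⟩
    · have := isEndoK hd ho 0
      rwa [h1] at this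
    · intro k ε hε
      obtain ⟨δ, h0, h2, h3⟩ := exists_close hd k hε
      have h4 := dn_no kq (nD_flip hd ho (Real.cos (2 * Real.pi * δ))) (nD_annulus hd h0 h2)
      exact ⟨_, _, isEndoK hd ho δ, linearPart hd _, analytic hd _, nuhK hd _, h3, h4.1, h4.2⟩

end Pool.Agent.Results.MP_9eaa6a_an.SmoothlyUnstable
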